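import Mathlib
import Pool.Agent.Work.MP_d2a4bb_nt.QE.Defs
import Pool.Agent.Work.MP_d2a4bb_nt.QE.Main
import Pool.Agent.Work.MP_d2a4bb_nt.QE.Example6

/-!
# Almost all holomorphic Hecke forms on a compact arithmetic surface equidistribute

`Q` is an order `O` in a quaternion division algebra over `ℚ` which splits at infinity (any such order,
maximal or not), `Γ = Q.Γ` its group of units of reduced norm one and `X = Γ \ ℍ`, represented by a
fundamental domain `F`.  The prime `p` is such that `O / p O` is isomorphic to `M₂(𝔽_p)` and the number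
`Q.index p` of classes `Γ \ {x ∈ O : nrd x = p}` is at least three (it is `p + 1` for maximal orders).
`B m` is any orthonormal basis of the space of holomorphic forms of weight `2 m` on `X` which consists of
eigenfunctions of the single Hecke operator `T_p`; in particular it may consist of joint eigenfunctions
of all Hecke operators.  The definitions are in `QE/Defs.lean`.
-/

open UpperHalfPlane MeasureTheory Filter
open scoped Topology

/-- For every orthonormal basis `B m` of `T_p`-eigenfunctions of weight `2 m` there are subsets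
`G m ⊆ B m` of density one such that the probability measures `|f|² y^{2m} dμ`, `f ∈ G m`, converge
weak-* to the uniform measure of `X`, uniformly in the choice of `f ∈ G m`, as `m → ∞`. -/
theorem Pool.Agent.Results.MP_d2a4bb_nt.AlmostAllForms.result
    (Q : HQ.QuatOrder) (p : ℕ) (hp : p.Prime) (hg : Q.Good p) (h3 : 3 ≤ Q.index p)
    (F : Set ℍ) (hF : Q.IsFund F) (B : ℕ → Finset (ℍ → ℂ))
    (hB : ∀ m, 0 < m → Q.IsHeckeBasis F p (2 * m) (B m)) :
    ∃ G : ℕ → Finset (ℍ → ℂ), (∀ m, G m ⊆ B m) ∧
      Tendsto (fun m => ((G m).card : ℝ) / ((B m).card : ℝ)) atTop (𝓝 1) ∧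
      ∀ ψ : ℍ → ℝ, Q.IsTest ψ → ∀ ε > (0 : ℝ), ∀ᶠ m in atTop, ∀ f ∈ G m,
        |(∫ z in F, ψ z * (‖f z‖ ^ 2 * z.im ^ (2 * m))) - (∫ z in F, ψ z) / (volume F).toReal| < ε :=
  HQ.main Q p hp hg h3 F hF B hB

/-- The hypotheses on `O` and `p` are satisfied, for example, by the maximal order of discriminant `6`
and all primes `p > 3`. -/
theorem Pool.Agent.Results.MP_d2a4bb_nt.AlmostAllForms.hypotheses_satisfied :
    ∃ Q : HQ.QuatOrder, ∀ p : ℕ, p.Prime → 3 < p → Q.Good p ∧ Q.index p = p + 1 := HQ.example6
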