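import Pool.Agent.Work.MP_d2a4bb_nt.CV.All
import Pool.Agent.Work.MP_d2a4bb_nt.Fin.Br

/-!
# Holomorphic Hecke forms on compact arithmetic surfaces do not concentrate on curves

The mass `μ_f` of the `r`-neighbourhood of a `C^{1,α}` arc, `α > 1 / 2`, is at most
`C r ^ ((2 α - 1) / 1000)`, where `C` depends only on `α` and on the bounds for the arc: not on the order,
the weight, the Hecke form `f`, the arc and its images under isometries. So all weak-* limits of the
measures `μ_f` give mass zero to every `C^{1,α}` arc, `α > 1 / 2`, and to every regular `C²` curve.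

The proof (folders `Work/MP_d2a4bb_nt/NC` and `CV`): an amplification with the Hecke operators of norm
`p` or `p²` for many primes `p`, a duality inequality in which only the elements count that keep the
direction of the curve, and the count of the elements of the order that map a short piece of the
arc to its neighbourhood; those which map only small parts of it there are controlled by the
estimate for small balls.

The last part of the statement gives an example: all primes `p > 3` are good for the maximal order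
of discriminant `6`.
-/

set_option autoImplicit false

open MeasureTheory UpperHalfPlane HQ Set
open scoped MatrixGroups

namespace Pool.Agent.Results.MP_d2a4bb_nt.Curves

open Pool.Agent.HoloQUE in
theorem result :
    (∀ (N₀ : ℝ → ℕ) (α M : ℝ), 1 / 2 < α → α ≤ 1 → 1 ≤ M → ∃ C : ℝ, 0 < C ∧
      ∀ (Q : QuatOrder) (P : Set ℕ), Q.GoodPrimes P N₀ →
      (∀ (k : ℕ) (f : ℍ → ℂ), Q.IsHeckeForm P k f →
        ∀ (γ : ℝ → ℍ) (γ' : ℝ → ℂ) (h : SL(2, ℝ)) (r : ℝ), IsArc α M γ γ' → 0 < r → r ≤ 1 →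
        HQ.mu k f {z | ∃ t ∈ Icc (0 : ℝ) 1, dist z (h • γ t) ≤ r} ≤
          ENNReal.ofReal (C * r ^ ((2 * α - 1) / 1000))) ∧
      ∀ (k : ℕ → ℕ) (f : ℕ → ℍ → ℂ) (ν : Measure ℍ), (∀ j, Q.IsHeckeForm P (k j) (f j)) →
        IsWeakLimit k f ν → (∀ γ : ℝ → ℍ, IsHolderArc γ → ν (γ '' Icc 0 1) = 0) ∧
          ∀ γ : ℝ → ℍ, ContDiff ℝ 2 (fun t => ((γ t : ℍ) : ℂ)) →
            (∀ t, deriv (fun t => ((γ t : ℍ) : ℂ)) t ≠ 0) → ν (range γ) = 0) ∧
    ∃ (Q : QuatOrder) (N₀ : ℝ → ℕ), (∀ x, x ∈ Q.O ↔ IsDisc6 x) ∧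
      Q.GoodPrimes {p | p.Prime ∧ 3 < p} N₀ := by
  refine ⟨fun N₀ α M hα hα1 hM => ?_, ?_⟩
  · obtain ⟨C, hC, h⟩ := all_FinC N₀ α M hα hα1 hM
    refine ⟨C, hC, fun Q P hP => ?_⟩
    obtain ⟨h1, h2⟩ := h Q P ((goodSet_iff Q P N₀).2 hP)
    exact ⟨fun k f hf γ γ' g r hγ => h1 k f ((heckeP_iff Q P k f).2 hf) γ γ' g r
        ((arc_iff α M γ γ').2 hγ),
      fun k f ν hf => h2 k f ν fun j => (heckeP_iff Q P (k j) (f j)).2 (hf j)⟩
  · obtain ⟨Q, N₀, h1, h2⟩ := all_Ex6
    exact ⟨Q, N₀, fun x => (h1 x).trans (isR6_iff x), (goodSet_iff Q _ N₀).1 h2⟩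

end Pool.Agent.Results.MP_d2a4bb_nt.Curves
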