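import Mathlib
import Pool.Agent.Work.MP_d2a4bb_nt.QV.Defs
import Pool.Agent.Work.MP_d2a4bb_nt.QV.Main
import Pool.Agent.Work.MP_d2a4bb_nt.QV.Example6

/-!
# Power saving in the quantum variance of holomorphic Hecke forms on compact arithmetic surfaces

`Q` is an order `O` in a quaternion division algebra over `ℚ` which splits at infinity, `Γ = Q.Γ` its
group of units of reduced norm one and `X = Γ \ ℍ`, represented by a fundamental domain `F`.  `P` is a
plentiful set of good primes of `O` (for instance all primes which do not divide the discriminant, for a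
maximal order).  `B` is any orthonormal set of holomorphic forms of weight `2 m` which are eigenfunctions
of all Hecke operators `T_p`, `p ∈ P`.  The definitions are in `QE/Defs.lean` and `QV/Defs.lean`.
-/

open UpperHalfPlane MeasureTheory Filter
open scoped Topology

/-- For every Lipschitz function `ψ` on `X` the sum over an orthonormal set of Hecke forms of weight `2 m`
of `|μ_f(ψ) - mean ψ| ^ 2` is at most `C m ^ (1 - 1/2000)`, and for a basis the average is at most
`C m ^ (-1/2000)`. -/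
theorem Pool.Agent.Results.MP_d2a4bb_nt.PowerSaving.result
    (Q : HQ.QuatOrder) (P : Set ℕ) (hP : Q.PlentyGood P) (F : Set ℍ) (hF : Q.IsFund F)
    (ψ : ℍ → ℝ) (hψ : Q.IsTest ψ) (hL : ∃ L : ℝ, ∀ z w : ℍ, |ψ z - ψ w| ≤ L * dist z w) :
    ∃ C : ℝ, ∀ m : ℕ, 0 < m → ∀ B : Finset (ℍ → ℂ), Q.IsHeckeFamily F P (2 * m) B →
      ∑ f ∈ B, ((∫ z in F, ψ z * (‖f z‖ ^ 2 * z.im ^ (2 * m))) - (∫ z in F, ψ z) / (volume F).toReal) ^ 2
        ≤ C * (m : ℝ) ^ (1 - 1 / 2000 : ℝ) ∧
      ((∀ h, Q.IsForm (2 * m) h → h ∈ Submodule.span ℂ (B : Set (ℍ → ℂ))) →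
        ∑ f ∈ B, ((∫ z in F, ψ z * (‖f z‖ ^ 2 * z.im ^ (2 * m))) - (∫ z in F, ψ z) / (volume F).toReal) ^ 2
          ≤ C * (m : ℝ) ^ (-1 / 2000 : ℝ) * B.card) :=
  HQ.mainV Q P hP F hF ψ hψ hL

/-- The hypotheses on `O` and `P` are satisfied, for example, by the maximal order of discriminant `6`
and the set of all primes `p > 3`. -/
theorem Pool.Agent.Results.MP_d2a4bb_nt.PowerSaving.hypotheses_satisfied :
    ∃ Q : HQ.QuatOrder, Q.PlentyGood {p : ℕ | p.Prime ∧ 3 < p} := HQ.example6V
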