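import Pool.Agent.Work.MP_d2a4bb_nt.NC.All
import Pool.Agent.Work.MP_d2a4bb_nt.Fin.Br

/-!
# Holomorphic Hecke forms on compact arithmetic surfaces do not concentrate in small balls

`μ_f(B(z, r)) ≤ C r ^ δ` for all `δ < 2 / 3`, where `C` does not depend on the order, on the weight, on the
Hecke form `f` and on `z`. All weak-* limits of the measures `μ_f` satisfy the same bound; they give
mass zero to every set of Hausdorff dimension less than `2 / 3`, in particular to every point.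

The proof (folder `Work/MP_d2a4bb_nt/NC`): an amplification with the Hecke operators of norm `p` or
`p²` for many primes `p`, a duality inequality, the multiplicities of the products of Hecke
elements, and the count of the elements of the order whose norm is at most `X`, or the square of an
integer at most `Y`, and which move `z` by at most `r`.

The last part of the statement gives an example: all primes `p > 3` are good for the maximal order
of discriminant `6`.
-/

set_option autoImplicit false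

open MeasureTheory UpperHalfPlane HQ

namespace Pool.Agent.Results.MP_d2a4bb_nt.SmallBalls

open Pool.Agent.HoloQUE in
theorem result :
    (∀ (N₀ : ℝ → ℕ) (δ : ℝ), δ < 2 / 3 → ∃ C : ℝ, 0 < C ∧ ∀ (Q : QuatOrder) (P : Set ℕ),
      Q.GoodPrimes P N₀ →
      (∀ (k : ℕ) (f : ℍ → ℂ), Q.IsHeckeForm P k f → ∀ (z : ℍ) (r : ℝ), 0 < r → r ≤ 1 →
        HQ.mu k f (Metric.ball z r) ≤ ENNReal.ofReal (C * r ^ δ)) ∧
      ∀ (k : ℕ → ℕ) (f : ℕ → ℍ → ℂ) (ν : Measure ℍ), (∀ j, Q.IsHeckeForm P (k j) (f j)) →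
        IsWeakLimit k f ν → (∀ (z : ℍ) (r : ℝ), 0 < r → r ≤ 1 →
          ν (Metric.ball z r) ≤ ENNReal.ofReal (C * r ^ δ)) ∧
          ∀ E : Set ℍ, dimH E < 2 / 3 → ν E = 0) ∧
    ∃ (Q : QuatOrder) (N₀ : ℝ → ℕ), (∀ x, x ∈ Q.O ↔ IsDisc6 x) ∧
      Q.GoodPrimes {p | p.Prime ∧ 3 < p} N₀ := by
  refine ⟨fun N₀ δ hδ => ?_, ?_⟩
  · obtain ⟨C, hC, h⟩ := all_FinA N₀ δ hδ
    refine ⟨C, hC, fun Q P hP => ?_⟩
    obtain ⟨h1, h2⟩ := h Q P ((goodSet_iff Q P N₀).2 hP)
    exact ⟨fun k f hf => h1 k f ((heckeP_iff Q P k f).2 hf),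
      fun k f ν hf => h2 k f ν fun j => (heckeP_iff Q P (k j) (f j)).2 (hf j)⟩
  · obtain ⟨Q, N₀, h1, h2⟩ := all_Ex6
    exact ⟨Q, N₀, fun x => (h1 x).trans (isR6_iff x), (goodSet_iff Q _ N₀).1 h2⟩

end Pool.Agent.Results.MP_d2a4bb_nt.SmallBalls
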